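import Mathlib
import Pool.Agent.H759R2.Kad.Props4

/-!
# Task S6: from the functional to an operator (helper989)
-/

open scoped ComplexOrder InnerProductSpace ComplexConjugate
open Finset

noncomputable section

namespace H759R2.Kad

universe u v

namespace S06

variable {H : Type v} [NormedAddCommGroup H] [InnerProductSpace ℂ H]

/-- the rank one operator `z ↦ ⟪x, z⟫ y` -/
def ro (y x : H) : H →L[ℂ] H := InnerProductSpace.rankOne ℂ y x

theorem ro_add_left (y y' x : H) : ro (y + y') x = ro y x + ro y' x := by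
  unfold ro; simp

theorem ro_add_right (y x x' : H) : ro y (x + x') = ro y x + ro y x' := by
  unfold ro; simp

theorem ro_smul_left (c : ℂ) (y x : H) : ro (c • y) x = c • ro y x := by
  unfold ro; simp

theorem ro_smul_right (c : ℂ) (y x : H) : ro y (c • x) = conj c • ro y x := by
  unfold ro; simp

theorem csmul (c : ℂ) (T : H →L[ℂ] H) : c • T = c.re • T + c.im • (Complex.I • T) := by
  have h1 : (c.re : ℝ) • T = ((c.re : ℝ) : ℂ) • T := by
    ext v; simp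
  have h2 : (c.im : ℝ) • (Complex.I • T) = ((c.im : ℝ) : ℂ) • (Complex.I • T) := by
    ext v; simp
  rw [h1, h2, smul_smul, ← add_smul]
  congr 1
  exact (Complex.re_add_im c).symm

/-- the sesquilinear form -/
def sf (φ : (H →L[ℂ] H) →ₗ[ℝ] ℝ) (x y : H) : ℂ :=
  ⟨(φ (ro y x) + φ (ro x y)) / 2, (φ (Complex.I • ro x y) - φ (Complex.I • ro y x)) / 2⟩

variable (φ : (H →L[ℂ] H) →ₗ[ℝ] ℝ)

theorem sf_add_left (x x' y : H) : sf φ (x + x') y = sf φ x y + sf φ x' y := by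
  apply Complex.ext
  · simp only [sf, ro_add_left, ro_add_right, map_add, Complex.add_re]; ring
  · simp only [sf, ro_add_left, ro_add_right, smul_add, map_add, Complex.add_im]; ring

theorem sf_add_right (x y y' : H) : sf φ x (y + y') = sf φ x y + sf φ x y' := by
  apply Complex.ext
  · simp only [sf, ro_add_left, ro_add_right, map_add, Complex.add_re]; ring
  · simp only [sf, ro_add_left, ro_add_right, smul_add, map_add, Complex.add_im]; ring

theorem phi_smul (c : ℂ) (T : H →L[ℂ] H) :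
    φ (c • T) = c.re * φ T + c.im * φ (Complex.I • T) := by
  rw [csmul, map_add, map_smul, map_smul, smul_eq_mul, smul_eq_mul]

theorem phi_I_smul (c : ℂ) (T : H →L[ℂ] H) :
    φ (Complex.I • (c • T)) = c.re * φ (Complex.I • T) - c.im * φ T := by
  rw [smul_smul, phi_smul]
  simp
  ring

theorem sf_smul_right (c : ℂ) (x y : H) : sf φ x (c • y) = c * sf φ x y := by
  apply Complex.ext
  · simp only [sf, ro_smul_left, ro_smul_right, Complex.mul_re]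
    rw [phi_smul φ c, phi_smul φ (conj c), Complex.conj_re, Complex.conj_im]
    ring
  · simp only [sf, ro_smul_left, ro_smul_right, Complex.mul_im, phi_I_smul, Complex.conj_re,
      Complex.conj_im]
    ring

theorem sf_smul_left (c : ℂ) (x y : H) : sf φ (c • x) y = conj c * sf φ x y := by
  apply Complex.ext
  · simp only [sf, ro_smul_left, ro_smul_right, Complex.mul_re, Complex.conj_re, Complex.conj_im]
    rw [phi_smul φ c, phi_smul φ (conj c), Complex.conj_re, Complex.conj_im]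
    ring
  · simp only [sf, ro_smul_left, ro_smul_right, Complex.mul_im, phi_I_smul, Complex.conj_re,
      Complex.conj_im]
    ring

theorem sf_self (x : H) : sf φ x x = (φ (rk x) : ℂ) := by
  apply Complex.ext
  · simp only [sf, Complex.ofReal_re]
    show (φ (ro x x) + φ (ro x x)) / 2 = φ (ro x x)
    ring
  · simp only [sf, Complex.ofReal_im]
    ring

theorem sf_re (x y : H) : (sf φ x y).re = (φ (rk (x + y)) - φ (rk (x - y))) / 4 := by
  have h1 : rk (x + y) = ro x x + ro y y + (ro x y + ro y x) := by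
    show ro (x + y) (x + y) = _
    rw [ro_add_left, ro_add_right, ro_add_right]; abel
  have h2 : rk (x - y) = ro x x + ro y y - (ro x y + ro y x) := by
    show ro (x - y) (x - y) = _
    unfold ro
    simp only [map_sub, _root_.sub_apply]
    abel
  rw [h1, h2]
  simp only [sf, map_add, map_sub]
  ring

theorem sf_re_le {C : ℝ} (hφ : ∀ ξ : H, 0 ≤ φ (rk ξ) ∧ φ (rk ξ) ≤ C * ‖ξ‖ ^ 2)
    (x y : H) : |(sf φ x y).re| ≤ C * (‖x‖ ^ 2 + ‖y‖ ^ 2) / 2 := by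
  rw [sf_re]
  have h1 := hφ (x + y)
  have h2 := hφ (x - y)
  have h3 : ‖x + y‖ ^ 2 + ‖x - y‖ ^ 2 = 2 * (‖x‖ ^ 2 + ‖y‖ ^ 2) :=
    parallelogram_law_with_norm ℂ x y
  have hC : C * (‖x + y‖ ^ 2 + ‖x - y‖ ^ 2) = 2 * (C * (‖x‖ ^ 2 + ‖y‖ ^ 2)) := by
    rw [h3]; ring
  rw [abs_le]
  constructor
  · linarith [h1.1, h2.1, h1.2, h2.2]
  · linarith [h1.1, h2.1, h1.2, h2.2]

theorem sf_re_le' {C : ℝ} (hφ : ∀ ξ : H, 0 ≤ φ (rk ξ) ∧ φ (rk ξ) ≤ C * ‖ξ‖ ^ 2)
    (x y : H) : |(sf φ x y).re| ≤ C * ‖x‖ * ‖y‖ := by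
  by_cases hx : x = 0
  · have : sf φ x y = 0 := by
      rw [hx, show (0 : H) = (0 : ℂ) • (0 : H) by simp, sf_smul_left]; simp
    rw [this, hx]; simp
  by_cases hy : y = 0
  · have : sf φ x y = 0 := by
      rw [hy, show (0 : H) = (0 : ℂ) • (0 : H) by simp, sf_smul_right]; simp
    rw [this, hy]; simp
  have hx' : 0 < ‖x‖ := norm_pos_iff.2 hx
  have hy' : 0 < ‖y‖ := norm_pos_iff.2 hy
  have e1 : x = ((‖x‖ : ℝ) : ℂ) • (((‖x‖⁻¹ : ℝ) : ℂ) • x) := by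
    rw [smul_smul, ← Complex.ofReal_mul, mul_inv_cancel₀ hx'.ne']; simp
  have e2 : y = ((‖y‖ : ℝ) : ℂ) • (((‖y‖⁻¹ : ℝ) : ℂ) • y) := by
    rw [smul_smul, ← Complex.ofReal_mul, mul_inv_cancel₀ hy'.ne']; simp
  have n1 : ‖(((‖x‖⁻¹ : ℝ) : ℂ) • x)‖ = 1 := by
    rw [norm_smul, Complex.norm_real, Real.norm_eq_abs, abs_of_pos (inv_pos.2 hx'),
      inv_mul_cancel₀ hx'.ne']
  have n2 : ‖(((‖y‖⁻¹ : ℝ) : ℂ) • y)‖ = 1 := by
    rw [norm_smul, Complex.norm_real, Real.norm_eq_abs, abs_of_pos (inv_pos.2 hy'),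
      inv_mul_cancel₀ hy'.ne']
  have h := sf_re_le φ hφ (((‖x‖⁻¹ : ℝ) : ℂ) • x) (((‖y‖⁻¹ : ℝ) : ℂ) • y)
  rw [n1, n2] at h
  have h2 : (sf φ x y).re = ‖x‖ * ‖y‖ *
      (sf φ (((‖x‖⁻¹ : ℝ) : ℂ) • x) (((‖y‖⁻¹ : ℝ) : ℂ) • y)).re := by
    conv_lhs => rw [e1, e2]
    rw [sf_smul_left, sf_smul_right, Complex.conj_ofReal, ← mul_assoc, ← Complex.ofReal_mul,
      Complex.re_ofReal_mul]
  rw [h2, abs_mul, abs_of_pos (mul_pos hx' hy')]
  calc ‖x‖ * ‖y‖ * |(sf φ (((‖x‖⁻¹ : ℝ) : ℂ) • x) (((‖y‖⁻¹ : ℝ) : ℂ) • y)).re|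
      ≤ ‖x‖ * ‖y‖ * (C * (1 ^ 2 + 1 ^ 2) / 2) :=
        mul_le_mul_of_nonneg_left h (mul_pos hx' hy').le
    _ = C * ‖x‖ * ‖y‖ := by ring

theorem sf_norm_le {C : ℝ} (hφ : ∀ ξ : H, 0 ≤ φ (rk ξ) ∧ φ (rk ξ) ≤ C * ‖ξ‖ ^ 2)
    (x y : H) : ‖sf φ x y‖ ≤ (2 * C) * ‖x‖ * ‖y‖ := by
  have h1 := sf_re_le' φ hφ x y
  have h2 := sf_re_le' φ hφ x (Complex.I • y)
  rw [sf_smul_right, norm_smul, Complex.norm_I, one_mul] at h2
  have h3 : (Complex.I * sf φ x y).re = -(sf φ x y).im := by simp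
  rw [h3, abs_neg] at h2
  have h4 := Complex.norm_le_abs_re_add_abs_im (sf φ x y)
  linarith

end S06

theorem prove4_form : S_form.{v} := by
  intro H _ _ _ φ C hC hφ
  have hC0 : 0 < C := by linarith
  have hφ' : ∀ ξ : H, 0 ≤ φ (rk ξ) ∧ φ (rk ξ) ≤ C * ‖ξ‖ ^ 2 := fun ξ =>
    ⟨le_trans (by positivity) (hφ ξ).1, (hφ ξ).2⟩
  let L : H →ₗ⋆[ℂ] H →ₗ[ℂ] ℂ := LinearMap.mk₂'ₛₗ (starRingEnd ℂ) (RingHom.id ℂ) (S06.sf φ)
    (fun x x' y => S06.sf_add_left φ x x' y)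
    (fun c x y => by rw [S06.sf_smul_left, smul_eq_mul])
    (fun x y y' => S06.sf_add_right φ x y y')
    (fun c x y => by rw [S06.sf_smul_right, RingHom.id_apply, smul_eq_mul])
  let B : H →L⋆[ℂ] H →L[ℂ] ℂ := LinearMap.mkContinuous₂ L (2 * C)
    (fun x y => S06.sf_norm_le φ hφ' x y)
  have hB : ∀ x y, B x y = S06.sf φ x y := fun x y => rfl
  let P : H →L[ℂ] H := InnerProductSpace.continuousLinearMapOfBilin B
  have hP : ∀ x y, ⟪P x, y⟫_ℂ = S06.sf φ x y := fun x y => by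
    rw [← hB x y]
    exact InnerProductSpace.continuousLinearMapOfBilin_apply B x y
  have hPr : ∀ ξ, ⟪P ξ, ξ⟫_ℂ = (φ (rk ξ) : ℂ) := fun ξ => by rw [hP, S06.sf_self]
  refine ⟨P, ?_, fun ξ => ?_⟩
  · rw [ContinuousLinearMap.isSelfAdjoint_iff_isSymmetric, LinearMap.isSymmetric_iff_inner_map_self_real]
    intro ξ
    show conj ⟪P ξ, ξ⟫_ℂ = ⟪P ξ, ξ⟫_ℂ
    rw [hPr ξ, Complex.conj_ofReal]
  · rw [← inner_conj_symm, hPr ξ, Complex.conj_ofReal]

end H759R2.Kad
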