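import Mathlib
import Pool.Agent.H759R2.Kad.Props4

/-!
# Task S3: unitary freedom (helper989)
-/

open scoped ComplexOrder InnerProductSpace ComplexConjugate
open Finset

noncomputable section

namespace H759R2.Kad

universe u v

namespace S03

variable {K : Type v} [NormedAddCommGroup K] [InnerProductSpace ℂ K]
variable {I : Type} [Fintype I]

/-- the map `x ↦ (⟪α i, x⟫)_i` -/
def cf (α : I → K) : K →ₗ[ℂ] EuclideanSpace ℂ I where
  toFun x := WithLp.toLp 2 fun i => ⟪α i, x⟫_ℂ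
  map_add' x y := by
    ext i
    simp
  map_smul' c x := by
    ext i
    simp

theorem cf_apply (α : I → K) (x : K) (i : I) : cf α x i = ⟪α i, x⟫_ℂ := rfl

theorem norm_cf_sq (α : I → K) (x : K) :
    ‖cf α x‖ ^ 2 = (⟪x, ∑ i, ⟪α i, x⟫_ℂ • α i⟫_ℂ).re := by
  rw [EuclideanSpace.norm_sq_eq, inner_sum, Complex.re_sum]
  refine sum_congr rfl fun i _ => ?_
  rw [inner_smul_right, cf_apply, ← inner_conj_symm x (α i), Complex.mul_conj,
    Complex.normSq_eq_norm_sq, Complex.ofReal_re]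

theorem norm_cf_eq (α β : I → K)
    (h : ∀ x, ∑ i, ⟪α i, x⟫_ℂ • α i = ∑ i, ⟪β i, x⟫_ℂ • β i) (x : K) :
    ‖cf α x‖ = ‖cf β x‖ := by
  have h1 : ‖cf α x‖ ^ 2 = ‖cf β x‖ ^ 2 := by rw [norm_cf_sq, norm_cf_sq, h]
  exact (pow_left_inj₀ (norm_nonneg _) (norm_nonneg _) two_ne_zero).1 h1

theorem exists_isom (α β : I → K)
    (h : ∀ x, ∑ i, ⟪α i, x⟫_ℂ • α i = ∑ i, ⟪β i, x⟫_ℂ • β i) :
    ∃ V : EuclideanSpace ℂ I →ₗᵢ[ℂ] EuclideanSpace ℂ I, ∀ x, V (cf β x) = cf α x := by
  obtain ⟨g, hg⟩ := LinearMap.exists_rightInverse_of_surjective (cf β).rangeRestrict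
    (LinearMap.range_rangeRestrict _)
  have hg' : ∀ z : LinearMap.range (cf β), cf β (g z) = z := fun z => by
    have := congrArg Subtype.val (LinearMap.congr_fun hg z)
    exact this
  have hker : ∀ x, cf β x = 0 → cf α x = 0 := fun x hx => by
    rw [← norm_eq_zero, norm_cf_eq α β h, hx, norm_zero]
  let L : LinearMap.range (cf β) →ₗᵢ[ℂ] EuclideanSpace ℂ I :=
    { toLinearMap := (cf α) ∘ₗ g
      norm_map' := fun z => by
        show ‖cf α (g z)‖ = ‖z‖
        rw [norm_cf_eq α β h, hg' z]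
        rfl }
  refine ⟨L.extend, fun x => ?_⟩
  have h1 : L.extend (cf β x) = L ⟨cf β x, LinearMap.mem_range_self _ x⟩ :=
    LinearIsometry.extend_apply L ⟨cf β x, LinearMap.mem_range_self _ x⟩
  rw [h1]
  show cf α (g ⟨cf β x, LinearMap.mem_range_self _ x⟩) = cf α x
  rw [← sub_eq_zero, ← map_sub]
  apply hker
  rw [map_sub, hg', sub_self]

end S03

theorem prove4_free : S_free.{v} := by
  intro K _ _ _ I _ _ α β h
  obtain ⟨V, hV⟩ := S03.exists_isom α β h
  have hexp : ∀ (z : EuclideanSpace ℂ I) (i : I),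
      V z i = ∑ j, z j * V (EuclideanSpace.single j 1) i := by
    intro z i
    have h1 : z = ∑ j, z j • EuclideanSpace.single j (1 : ℂ) := by
      ext k
      simp [Finset.sum_apply, Pi.single_apply]
    conv_lhs => rw [h1]
    rw [map_sum]
    simp [Finset.sum_apply]
  refine ⟨Matrix.of fun i j => conj (V (EuclideanSpace.single j 1) i), ?_, fun i => ?_⟩
  · change _ ∈ Matrix.unitaryGroup I ℂ
    rw [Matrix.mem_unitaryGroup_iff']
    ext j k
    rw [Matrix.mul_apply]
    have h2 : ⟪V (EuclideanSpace.single k (1 : ℂ)), V (EuclideanSpace.single j (1 : ℂ))⟫_ℂ =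
        ⟪EuclideanSpace.single k (1 : ℂ), EuclideanSpace.single j (1 : ℂ)⟫_ℂ := V.inner_map_map _ _
    rw [PiLp.inner_apply] at h2
    simp only [Matrix.star_apply, Matrix.of_apply, RCLike.star_def, Complex.conj_conj]
    rw [EuclideanSpace.inner_single_left] at h2
    simp only [map_one, one_mul, PiLp.single_apply] at h2
    rw [Matrix.one_apply]
    refine Eq.trans ?_ (h2.trans ?_)
    · refine sum_congr rfl fun i _ => ?_
      simp
    · by_cases hjk : j = k
      · simp [hjk]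
      · simp [hjk, Ne.symm hjk]
  · refine ext_inner_right ℂ fun x => ?_
    have h3 : ⟪α i, x⟫_ℂ = V (S03.cf β x) i := by rw [hV x]; rfl
    rw [h3, hexp, sum_inner]
    refine sum_congr rfl fun j _ => ?_
    rw [S03.cf_apply, inner_smul_left, Matrix.of_apply, Complex.conj_conj, mul_comm]

end H759R2.Kad
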