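import Mathlib
import Pool.Agent.H759R2.Kad.Props5

/-!
# Task F11: orthogonal unitaries (helper989)
-/

open scoped ComplexOrder InnerProductSpace ComplexConjugate
open Finset

noncomputable section

namespace H759R2.Kad

universe u v

namespace F11

theorem sum_root {n : ℕ} (hn : 0 < n) {ζ : ℂ} (hζ : IsPrimitiveRoot ζ n) {a b : ℕ} (ha : a < n)
    (hb : b < n) (hab : a ≠ b) :
    ∑ i : Fin n, (conj (ζ ^ (a * (i : ℕ))) * ζ ^ (b * (i : ℕ))) = 0 := by
  have h1 : ‖ζ‖ = 1 := hζ.norm'_eq_one hn.ne'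
  have hc : conj ζ * ζ = 1 := by
    rw [← Complex.normSq_eq_conj_mul_self, Complex.normSq_eq_norm_sq, h1]; simp
  have hζ0 : ζ ≠ 0 := hζ.ne_zero hn.ne'
  set z : ℂ := conj ζ ^ a * ζ ^ b with hz
  have hzn : z ^ n = 1 := by
    rw [hz, mul_pow, ← pow_mul, ← pow_mul, mul_comm a, mul_comm b, pow_mul, pow_mul,
      ← map_pow, hζ.pow_eq_one]
    simp
  have hz1 : z ≠ 1 := by
    intro h
    apply hab
    apply hζ.pow_inj ha hb
    have h2 : ζ ^ a * z = ζ ^ b := by
      rw [hz, ← mul_assoc, ← mul_pow, mul_comm ζ, hc, one_pow, one_mul]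
    rw [← h2, h, mul_one]
  have h3 : ∀ i : Fin n, conj (ζ ^ (a * (i : ℕ))) * ζ ^ (b * (i : ℕ)) = z ^ (i : ℕ) := by
    intro i
    rw [hz, mul_pow, pow_mul, pow_mul, map_pow, map_pow]
  rw [sum_congr rfl fun i _ => h3 i, Fin.sum_univ_eq_sum_range (fun i => z ^ i) n,
    geom_sum_eq hz1, hzn, sub_self, zero_div]

end F11

theorem prove5_orth (h : F_pow.{u}) : F_orth.{u} := by
  intro H _ _ _ M τ hM K
  obtain ⟨k, hk⟩ : ∃ k, K ≤ 2 ^ k := ⟨K, Nat.lt_two_pow_self.le⟩
  obtain ⟨N, τ', hN, ⟨φ⟩⟩ := h H M τ hM k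
  generalize hn : 2 ^ k = n at φ hk
  have hn0 : 0 < n := by rw [← hn]; positivity
  haveI : NeZero n := ⟨hn0.ne'⟩
  let Φ : Matrix (Fin n) (Fin n) N.toStarSubalgebra ≃⋆ₐ[ℂ] M.toStarSubalgebra :=
    (CStarMatrix.ofMatrixStarAlgEquiv).trans φ.symm
  let dg : (Fin n → ℂ) → Matrix (Fin n) (Fin n) N.toStarSubalgebra := fun f =>
    Matrix.diagonal fun i => f i • (1 : N.toStarSubalgebra)
  have hstar : ∀ f, star (dg f) = dg fun i => conj (f i) := by
    intro f
    simp only [dg]
    rw [Matrix.star_eq_conjTranspose, Matrix.diagonal_conjTranspose]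
    congr 1
    funext i
    simp
  have hmul : ∀ f g, dg f * dg g = dg fun i => f i * g i := by
    intro f g
    simp only [dg]
    rw [Matrix.diagonal_mul_diagonal]
    congr 1
    funext i
    simp [smul_smul, mul_comm]
  have hone : dg (fun _ => 1) = 1 := by
    simp only [dg, one_smul]
    exact Matrix.diagonal_one
  have htr : ∀ i, τ (Φ (Matrix.single i i 1)) = τ (Φ (Matrix.single 0 0 1)) := by
    intro i
    have e1 : (Matrix.single i i (1 : N.toStarSubalgebra)) =
        Matrix.single i 0 1 * Matrix.single 0 i 1 := by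
      rw [Matrix.single_mul_single_same, one_mul]
    have e2 : (Matrix.single (0 : Fin n) 0 (1 : N.toStarSubalgebra)) =
        Matrix.single 0 i 1 * Matrix.single i 0 1 := by
      rw [Matrix.single_mul_single_same, one_mul]
    rw [e1, e2, map_mul Φ, map_mul Φ, hM.trace.comm]
  have hτ : ∀ f, τ (Φ (dg f)) = (∑ i, f i) * τ (Φ (Matrix.single 0 0 1)) := by
    intro f
    have e1 : dg f = ∑ i, f i • Matrix.single i i (1 : N.toStarSubalgebra) := by
      simp only [dg]
      rw [← Matrix.sum_single_eq_diagonal]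
      refine sum_congr rfl fun i _ => ?_
      rw [Matrix.smul_single]
    rw [e1, map_sum, map_sum, sum_mul]
    refine sum_congr rfl fun i _ => ?_
    rw [map_smul, map_smul, htr, smul_eq_mul]
  have hunit : ∀ f : Fin n → ℂ, (∀ i, conj (f i) * f i = 1) → Φ (dg f) ∈ unitary M.toStarSubalgebra := by
    intro f hf
    rw [Unitary.mem_iff]
    have h1 : star (dg f) * dg f = 1 := by
      rw [hstar, hmul, ← hone]
      congr 1
      funext i
      exact hf i
    have h2 : dg f * star (dg f) = 1 := by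
      rw [hstar, hmul, ← hone]
      congr 1
      funext i
      rw [mul_comm]
      exact hf i
    constructor
    · rw [← map_star, ← map_mul, h1, map_one]
    · rw [← map_star, ← map_mul, h2, map_one]
  obtain ⟨ζ, hζ⟩ : ∃ ζ : ℂ, IsPrimitiveRoot ζ n := ⟨_, Complex.isPrimitiveRoot_exp n hn0.ne'⟩
  have hnorm : ‖ζ‖ = 1 := hζ.norm'_eq_one hn0.ne'
  have hc : conj ζ * ζ = 1 := by
    rw [← Complex.normSq_eq_conj_mul_self, Complex.normSq_eq_norm_sq, hnorm]; simp
  let f : Fin K → Fin n → ℂ := fun a i => ζ ^ ((a : ℕ) * (i : ℕ))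
  refine ⟨fun a => ⟨Φ (dg (f a)), hunit _ fun i => ?_⟩, fun a b hab => ?_⟩
  · simp only [f]
    rw [map_pow, ← mul_pow, hc, one_pow]
  · show τ (star (Φ (dg (f a))) * Φ (dg (f b))) = 0
    rw [← map_star, ← map_mul, hstar, hmul, hτ]
    have := F11.sum_root hn0 hζ (a := a) (b := b) (lt_of_lt_of_le a.2 hk) (lt_of_lt_of_le b.2 hk)
      (fun h => hab (Fin.ext h))
    simp only [f]
    rw [this, zero_mul]

end H759R2.Kad
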