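import Mathlib
import Pool.Agent.H759R2.Kad.Props4

/-!
# Task S7: from an invariant operator to a similarity (helper989)
-/

open scoped ComplexOrder InnerProductSpace ComplexConjugate
open Finset

noncomputable section

namespace H759R2.Kad

universe u v

namespace S07

variable {H : Type v} [NormedAddCommGroup H] [InnerProductSpace ℂ H] [CompleteSpace H]

theorem norm_sq_le_of {T : H →L[ℂ] H} {C : ℝ} (hC : 0 ≤ C)
    (h : ∀ x, ‖T x‖ ^ 2 ≤ C * ‖x‖ ^ 2) : ‖T‖ ^ 2 ≤ C := by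
  have h1 : ‖T‖ ≤ Real.sqrt C := by
    refine ContinuousLinearMap.opNorm_le_bound _ (Real.sqrt_nonneg _) fun x => ?_
    have h2 := h x
    have h3 : ‖T x‖ ≤ Real.sqrt (C * ‖x‖ ^ 2) := Real.le_sqrt_of_sq_le h2
    rwa [Real.sqrt_mul hC, Real.sqrt_sq (norm_nonneg _)] at h3
  calc ‖T‖ ^ 2 ≤ Real.sqrt C ^ 2 := pow_le_pow_left₀ (norm_nonneg _) h1 2
    _ = C := Real.sq_sqrt hC

/-- a square root of a positive invertible operator, with its inverse -/
theorem exists_root {C : ℝ} (hC : 1 ≤ C) (P : H →L[ℂ] H) (hP : IsSelfAdjoint P)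
    (hb : ∀ ξ, C⁻¹ * ‖ξ‖ ^ 2 ≤ (⟪ξ, P ξ⟫_ℂ).re ∧ (⟪ξ, P ξ⟫_ℂ).re ≤ C * ‖ξ‖ ^ 2) :
    ∃ S S' : H →L[ℂ] H, S * S' = 1 ∧ S' * S = 1 ∧ star S = S ∧ star S' = S' ∧ S * S = P ∧
      ‖S‖ ^ 2 ≤ C ∧ ‖S'‖ ^ 2 ≤ C := by
  have hC0 : 0 < C := by linarith
  have hCi : 0 < C⁻¹ := inv_pos.2 hC0
  have hre : ∀ ξ, (⟪P ξ, ξ⟫_ℂ).re = (⟪ξ, P ξ⟫_ℂ).re := fun ξ => by
    rw [← inner_conj_symm, Complex.conj_re]
  have hpos : (0 : H →L[ℂ] H) ≤ P := by
    rw [ContinuousLinearMap.nonneg_iff_isPositive, ContinuousLinearMap.isPositive_def']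
    refine ⟨hP, fun x => ?_⟩
    show 0 ≤ (⟪P x, x⟫_ℂ).re
    rw [hre x]
    exact le_trans (by positivity) (hb x).1
  have hunit : IsUnit P := by
    refine ContinuousLinearMap.isUnit_of_forall_le_norm_inner_map P (c := ⟨C⁻¹, hCi.le⟩) hCi
      fun x => ?_
    have h1 := (hb x).1
    rw [← hre x] at h1
    have h2 : (⟪P x, x⟫_ℂ).re ≤ ‖⟪P x, x⟫_ℂ‖ := Complex.re_le_norm _
    show ‖x‖ ^ 2 * C⁻¹ ≤ _
    linarith
  have hsq : CFC.sqrt P * CFC.sqrt P = P := CFC.sqrt_mul_sqrt_self P hpos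
  have hSu : IsUnit (CFC.sqrt P) := (CFC.isUnit_sqrt_iff P hpos).2 hunit
  have hSs : star (CFC.sqrt P) = CFC.sqrt P := (IsSelfAdjoint.of_nonneg (CFC.sqrt_nonneg P)).star_eq
  obtain ⟨U, hU⟩ := hSu
  have e1 : CFC.sqrt P * (↑U⁻¹ : H →L[ℂ] H) = 1 := by rw [← hU]; exact U.mul_inv
  have e2 : (↑U⁻¹ : H →L[ℂ] H) * CFC.sqrt P = 1 := by rw [← hU]; exact U.inv_mul
  have e3 : star (↑U⁻¹ : H →L[ℂ] H) = (↑U⁻¹ : H →L[ℂ] H) := by
    have h1 : star (↑U⁻¹ : H →L[ℂ] H) * CFC.sqrt P = 1 := by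
      have := congrArg star e1
      rwa [star_mul, hSs, star_one] at this
    calc star (↑U⁻¹ : H →L[ℂ] H) = star (↑U⁻¹ : H →L[ℂ] H) * (CFC.sqrt P * (↑U⁻¹ : H →L[ℂ] H)) := by
          rw [e1, mul_one]
      _ = (↑U⁻¹ : H →L[ℂ] H) := by rw [← mul_assoc, h1, one_mul]
  have hnS : ∀ x, ‖CFC.sqrt P x‖ ^ 2 = (⟪x, P x⟫_ℂ).re := by
    intro x
    have h1 : ⟪CFC.sqrt P x, CFC.sqrt P x⟫_ℂ = ⟪x, P x⟫_ℂ := by
      have h0 : ⟪x, (star (CFC.sqrt P)) (CFC.sqrt P x)⟫_ℂ = ⟪CFC.sqrt P x, CFC.sqrt P x⟫_ℂ := by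
        rw [ContinuousLinearMap.star_eq_adjoint, ContinuousLinearMap.adjoint_inner_right]
      rw [hSs, ← mul_apply_eq_comp, hsq] at h0
      exact h0.symm
    rw [← h1, ← inner_self_eq_norm_sq (𝕜 := ℂ)]
    rfl
  refine ⟨CFC.sqrt P, (↑U⁻¹ : H →L[ℂ] H), e1, e2, hSs, e3, hsq, ?_, ?_⟩
  · refine norm_sq_le_of hC0.le fun x => ?_
    rw [hnS]
    exact (hb x).2
  · refine norm_sq_le_of hC0.le fun y => ?_
    have h1 := (hb ((↑U⁻¹ : H →L[ℂ] H) y)).1
    rw [← hnS] at h1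
    have h2 : CFC.sqrt P ((↑U⁻¹ : H →L[ℂ] H) y) = y := by
      rw [← mul_apply_eq_comp, e1]; rfl
    rw [h2] at h1
    have h3 := mul_le_mul_of_nonneg_left h1 hC0.le
    rwa [← mul_assoc, mul_inv_cancel₀ hC0.ne', one_mul] at h3

end S07

theorem prove4_root : S_root.{u, v} := by
  intro A _ _ _ H _ _ _ w hw C hC P hP hb hinv
  obtain ⟨S, S', e1, e2, hS, hS', hsq, n1, n2⟩ := S07.exists_root hC P hP hb
  refine ⟨S, S', e1, e2, n1, n2, ?_⟩
  have key : ∀ g : unitary A, star (S * w (g : A) * S') = S * w (star (g : A)) * S' := by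
    intro g
    have h1 : star (w (g : A)) * P * w (g : A) = P := by
      have h2 : ((star (w (g : A)) * P * w (g : A) : H →L[ℂ] H) : H →ₗ[ℂ] H) = (P : H →ₗ[ℂ] H) := by
        rw [← ext_inner_map]
        intro x
        have h3 := hinv g x
        have h4 := congrArg conj h3
        rw [inner_conj_symm, inner_conj_symm] at h4
        show ⟪(star (w (g : A)) * P * w (g : A)) x, x⟫_ℂ = ⟪P x, x⟫_ℂ
        rw [← h4, mul_apply_eq_comp, mul_apply_eq_comp, ContinuousLinearMap.star_eq_adjoint,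
          ContinuousLinearMap.adjoint_inner_left]
      exact ContinuousLinearMap.coe_injective h2
    have h5 : w (g : A) * w (star (g : A)) = 1 := by
      rw [← hw.mul, Unitary.mul_star_self_of_mem g.2, hw.one]
    have h6 : star (w (g : A)) * P = P * w (star (g : A)) := by
      calc star (w (g : A)) * P = star (w (g : A)) * P * (w (g : A) * w (star (g : A))) := by
            rw [h5, mul_one]
        _ = (star (w (g : A)) * P * w (g : A)) * w (star (g : A)) := by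
            simp only [mul_assoc]
        _ = P * w (star (g : A)) := by rw [h1]
    calc star (S * w (g : A) * S') = S' * (star (w (g : A)) * S) := by
          rw [star_mul, star_mul, hS, hS']
      _ = S' * (star (w (g : A)) * (S * (S * S'))) := by rw [e1, mul_one]
      _ = S' * (star (w (g : A)) * P) * S' := by rw [← hsq]; simp only [mul_assoc]
      _ = S' * (P * w (star (g : A))) * S' := by rw [h6]
      _ = (S' * S) * S * w (star (g : A)) * S' := by rw [← hsq]; simp only [mul_assoc]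
      _ = S * w (star (g : A)) * S' := by rw [e2, one_mul]
  intro a
  have ha : a ∈ Submodule.span ℂ (unitary A : Set A) := by
    rw [CStarAlgebra.span_unitary]; trivial
  induction ha using Submodule.span_induction with
  | mem x hx => exact key ⟨x, hx⟩
  | zero => simp
  | add x y _ _ hx hy =>
    rw [map_add, mul_add, add_mul, star_add, hx, hy, star_add, map_add, mul_add, add_mul]
  | smul c x _ hx =>
    rw [map_smul, mul_smul_comm, smul_mul_assoc, star_smul, hx, star_smul, map_smul,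
      mul_smul_comm, smul_mul_assoc]

end H759R2.Kad
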